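import Mathlib
import Pool.Agent.H92.CK.Stmt

/-!
# Insulating cracks under an a priori bound (MP_0ee698_an): definitions
-/

open MeasureTheory Set Filter Topology Metric
open scoped ENNReal NNReal ContDiff RealInnerProductSpace

namespace Pool.Agent.H65.AP

open Pool.Agent.H94.IC Pool.Agent.H92.CK

/-- `S` has reach at least `r`: each ball of radius less than `r` whose interior misses `S` and which touches `S` at
`p` is contained in a ball of radius `r` with the same properties (the centre is moved along the ray from `p`) -/
def HasReach (r : ℝ) (S : Set E) : Prop := ∀ (x p : E), p ∈ S → 0 < dist x p → dist x p < r →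
  dist x p = infDist x S → infDist (p + (r / dist x p) • (x - p)) S = r

/-- a deformation of the complement of `S` in itself, which fixes all far points and ends at points at distance at
least `r` from `S` -/
structure PushMap (r : ℝ) (S : Set E) (H : ℝ → E → E) : Prop where
  cont : ContinuousOn (fun q : ℝ × E => H q.1 q.2) (Icc 0 1 ×ˢ Sᶜ)
  zero : ∀ x ∉ S, H 0 x = x
  out : ∀ t ∈ Icc (0 : ℝ) 1, ∀ x ∉ S, H t x ∉ S
  far : ∀ x ∉ S, r ≤ infDist (H 1 x) S
  inf : ∃ R : ℝ, ∀ x, R ≤ ‖x‖ → ∀ t ∈ Icc (0 : ℝ) 1, H t x = x

/-- the complement of `S` can be pushed away from `S` to the distance `r` -/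
def Pushable (r : ℝ) (S : Set E) : Prop := ∃ H : ℝ → E → E, PushMap r S H

/-- the a priori class: the crack has reach at least `r`, or its complement can be pushed away from it to the
distance `r`; and it has distance at least `r` from the boundary of the domain -/
def Wide (r : ℝ) (Ω S : Set E) : Prop :=
  (HasReach r S ∨ Pushable r S) ∧ ∀ x ∈ S, r ≤ infDist x (frontier Ω)

/-- THE THEOREM: there is one sequence of current profiles whose first `N r` members distinguish all cracks in the
class with parameter `r` from all admissible cracks; and all cracks are in such a class -/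
def T_APR : Prop := ∀ (Ω : Set E) (σ : Measure E) (ν : E → E), Dom Ω → IsSurf Ω σ ν →
  (∃ (ψ : ℕ → E → ℝ) (N : ℝ → ℕ), (∀ i, IsProfile σ (ψ i)) ∧ ∀ r > 0, ∀ S S' : Set E, IsCrack Ω S →
    IsCrack Ω S' → Wide r Ω S → Same Ω σ ν (fun i : Fin (N r) => ψ i) S S' → S = S') ∧
  ∀ S : Set E, IsCrack Ω S → ∃ r > 0, HasReach r S ∧ Wide r Ω S

end Pool.Agent.H65.AP
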