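import Mathlib
import Pool.Agent.H92.CK.Targets
import Pool.Agent.H65.AP.Defs

/-!
# Insulating cracks under an a priori bound: targets

Modules: one `Prop` `T_XX` per module.
-/

open MeasureTheory Set Filter Topology Metric
open scoped ENNReal NNReal ContDiff RealInnerProductSpace

namespace Pool.Agent.H65.AP

open Pool.Agent.H94.IC Pool.Agent.H94.AC Pool.Agent.H92.CK

/-! ## A: profiles, projections, rank three -/

/-- the curl of a vector field -/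
noncomputable def curl (A : E → E) (x : E) : E :=
  !₂[(fderiv ℝ A x (ev 1)) 2 - (fderiv ℝ A x (ev 2)) 1, (fderiv ℝ A x (ev 2)) 0 - (fderiv ℝ A x (ev 0)) 2,
    (fderiv ℝ A x (ev 0)) 1 - (fderiv ℝ A x (ev 1)) 0]

/-- cutoff functions: one near the complement of the domain, zero at distance at least `r / 2` from the boundary -/
structure Cut (Ω : Set E) (r : ℝ) (η : E → ℝ) : Prop where
  sm : ContDiff ℝ ∞ η
  one : ∃ W : Set E, IsOpen W ∧ Ωᶜ ⊆ W ∧ ∀ x ∈ W, η x = 1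
  zero : ∀ x ∈ Ω, r / 2 ≤ infDist x (frontier Ω) → η x = 0

/-- cutoff functions exist -/
def T_CTX : Prop := ∀ (Ω : Set E) (r : ℝ), Dom Ω → 0 < r → ∃ η : E → ℝ, Cut Ω r η

/-- calculus of the curl -/
def T_CRL : Prop :=
  (∀ A : E → E, ContDiff ℝ ∞ A → ContDiff ℝ ∞ (curl A) ∧ tsupport (curl A) ⊆ tsupport A ∧ ∀ x, dv (curl A) x = 0) ∧
  (∀ A B : E → E, ContDiff ℝ ∞ A → ContDiff ℝ ∞ B → ∀ x, curl (fun y => A y + B y) x = curl A x + curl B x) ∧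
  (∀ (φ : E → ℝ) (k : Fin 3), ContDiff ℝ ∞ φ → ∀ x,
    gr (pd k φ) x = curl (curl fun y => φ y • ev k) x + (∑ j : Fin 3, pd j (pd j φ) x) • ev k) ∧
  ∀ c : E, ∃ B : E → E, ContDiff ℝ ∞ B ∧ ∀ x, curl B x = c

/-- the profiles `curl A . ν` -/
def T_PFA : Prop := ∀ (Ω : Set E) (σ : Measure E) (ν : E → E) (A : E → E), Dom Ω → IsSurf Ω σ ν →
  ContDiff ℝ ∞ A → HasCompactSupport A → IsProfile σ (fun x => ⟪curl A x, ν x⟫) ∧
  ∀ (r : ℝ) (η : E → ℝ) (S : Set E), 0 < r → Cut Ω r η → IsCompact S → S ⊆ Ω →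
    (∀ y ∈ S, r ≤ infDist y (frontier Ω)) → ∀ (φ : E → ℝ) (G : E → E) (κ : E → ℝ), HS1 Ω S σ ν φ G κ →
    ∫ x, ⟪curl A x, ν x⟫ * κ x ∂σ = ∫ x in Ω, ⟪curl (fun y => η y • A y) x, G x⟫

/-- mean values of harmonic gradients -/
def T_MVB : Prop := ∀ (O : Set E) (h : E → ℝ) (x v : E) (ρ : ℝ), IsOpen O → Harm O h → 0 < ρ →
  closedBall x ρ ⊆ O → ∫ y in ball x ρ, ⟪v, gr h y⟫ = (volume (ball x ρ)).toReal * ⟪v, gr h x⟫

/-- projections on the gradients -/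
def T_PRJ : Prop := ∀ (Ω S : Set E) (σ : Measure E) (ν : E → E) (r ρ : ℝ) (η : E → ℝ) (N : ℕ)
  (A : Fin N → E → E) (h τ : Fin N → E → ℝ) (x v : E), Dom Ω → IsSurf Ω σ ν → 0 < r → Cut Ω r η →
  IsCompact S → S ⊆ Ω → volume S = 0 → (∀ y ∈ S, r ≤ infDist y (frontier Ω)) →
  (∀ i, ContDiff ℝ ∞ (A i) ∧ HasCompactSupport (A i)) → (∀ i, Harm (Ω \ S) (h i)) →
  (∀ i, Sol Ω S σ ν (fun y => ⟪curl (A i) y, ν y⟫) (h i) (gr (h i)) (τ i)) → 0 < ρ →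
  closedBall x ρ ⊆ Ω \ S → (∀ i, ⟪gr (h i) x, v⟫ = 0) →
  ∃ P : E → E, MemLp P 2 (volume.restrict Ω) ∧
    ∫ y in Ω, ‖P y‖ ^ 2 ≤ (volume (ball x ρ)).toReal * ‖v‖ ^ 2 ∧
    (∀ i, ∫ y in Ω, ⟪P y, curl (fun z => η z • A i z) y⟫ = 0) ∧
    (∀ φ : E → ℝ, ContDiff ℝ ∞ φ → HasCompactSupport φ →
      ∫ y in Ω, ⟪P y, gr φ y⟫ = ∫ y in ball x ρ, ⟪v, gr φ y⟫) ∧
    ∀ B : E → E, ContDiff ℝ ∞ B → HasCompactSupport B → tsupport B ⊆ Ω \ S → ∫ y in Ω, ⟪P y, curl B y⟫ = 0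

/-- bounded sequences of square integrable fields have weak limits along ultrafilters -/
def T_WKU : Prop := ∀ (Ω : Set E) (P : ℕ → E → E) (C : ℝ) (U : Ultrafilter ℕ), MeasurableSet Ω →
  (∀ n, MemLp (P n) 2 (volume.restrict Ω)) → (∀ n, ∫ y in Ω, ‖P n y‖ ^ 2 ≤ C) →
  ∃ Q : E → E, MemLp Q 2 (volume.restrict Ω) ∧ ∀ g : E → E, MemLp g 2 (volume.restrict Ω) →
    Tendsto (fun n => ∫ y in Ω, ⟪P n y, g y⟫) U (𝓝 (∫ y in Ω, ⟪Q y, g y⟫))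

/-- countable families of test fields suffice -/
def T_DNS : Prop := ∀ (Ω : Set E) (η : E → ℝ), IsOpen Ω → Bornology.IsBounded Ω → ContDiff ℝ ∞ η →
  ∃ A : ℕ → E → E, (∀ i, ContDiff ℝ ∞ (A i) ∧ HasCompactSupport (A i)) ∧
    ∀ P : E → E, MemLp P 2 (volume.restrict Ω) →
      (∀ i, ∫ y in Ω, ⟪P y, curl (fun z => η z • A i z) y⟫ = 0) →
      ∀ B : E → E, ContDiff ℝ ∞ B → HasCompactSupport B → ∫ y in Ω, ⟪P y, curl (fun z => η z • B z) y⟫ = 0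

/-- removing a ball does not disconnect -/
def T_HOL : Prop := ∀ (W : Set E) (x : E) (a b : ℝ), IsOpen W → IsPreconnected W → 0 < a → a < b →
  ball x b ⊆ W → IsPreconnected (W \ closedBall x a)

/-- unique continuation: there is no dipole field without charge outside -/
def T_UCP : Prop := ∀ (Ω W : Set E) (x v : E) (ρ : ℝ) (P : E → E), IsOpen Ω → Bornology.IsBounded Ω → IsOpen W →
  IsPreconnected W → (W ∩ (closure Ω)ᶜ).Nonempty → 0 < ρ → ball x (2 * ρ) ⊆ W → ball x (2 * ρ) ⊆ Ω →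
  MemLp P 2 (volume.restrict Ω) →
  (∀ φ : E → ℝ, ContDiff ℝ ∞ φ → HasCompactSupport φ →
    ∫ y in Ω, ⟪P y, gr φ y⟫ = ∫ y in ball x ρ, ⟪v, gr φ y⟫) →
  (∀ B : E → E, ContDiff ℝ ∞ B → HasCompactSupport B → tsupport B ⊆ W → ∫ y in Ω, ⟪P y, curl B y⟫ = 0) → v = 0

/-- finitely many channels to the outside -/
def T_WCH : Prop := ∀ (Ω : Set E) (r : ℝ), Bornology.IsBounded Ω → 0 < r → ∃ 𝒲 : Finset (Set E),
  (∀ W ∈ 𝒲, IsOpen W ∧ IsPreconnected W ∧ (W ∩ (closure Ω)ᶜ).Nonempty) ∧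
  ∀ (S : Set E) (x : E), S.Nonempty → x ∈ Ω → r < infDist x S →
    (connectedComponentIn {y | r < infDist y S} x ∩ (closure Ω)ᶜ).Nonempty →
    ∃ W ∈ 𝒲, ball x (r / 8) ⊆ W ∧ ∀ y ∈ W, r / 2 ≤ infDist y S

/-- RANK THREE: finitely many profiles give rank three at all points which are far from the crack and from the
boundary and are joined to the outside far from the crack, uniformly in the crack -/
def T_RKT : Prop := ∀ (Ω : Set E) (σ : Measure E) (ν : E → E) (r : ℝ), Dom Ω → IsSurf Ω σ ν → 0 < r →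
  ∃ (N : ℕ) (ψ : Fin N → E → ℝ), (∀ i, IsProfile σ (ψ i)) ∧ ∀ (S : Set E) (h τ : Fin N → E → ℝ),
    IsCompact S → S.Nonempty → S ⊆ Ω → volume S = 0 → (∀ y ∈ S, r ≤ infDist y (frontier Ω)) →
    (∀ i, Harm (Ω \ S) (h i)) → (∀ i, Sol Ω S σ ν (ψ i) (h i) (gr (h i)) (τ i)) →
    ∀ x ∈ Ω, r < infDist x S → r ≤ infDist x (frontier Ω) →
      (connectedComponentIn {y | r < infDist y S} x ∩ (closure Ω)ᶜ).Nonempty →
      ¬ ∃ v : E, ‖v‖ = 1 ∧ ∀ i, ⟪gr (h i) x, v⟫ = 0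

/-! ## B: reach and push maps -/

/-- cracks have positive reach -/
def T_RCH : Prop := ∀ Ω S : Set E, IsCrack Ω S → ∃ r > 0, HasReach r S

/-- smaller parameters -/
def T_RMN : Prop := ∀ (S : Set E) (r r' : ℝ), IsClosed S → 0 < r' → r' ≤ r →
  (HasReach r S → HasReach r' S) ∧ (Pushable r S → Pushable r' S)

/-- sets of positive reach have push maps -/
def T_PSH : Prop := ∀ (S : Set E) (r r' : ℝ), IsCompact S → S.Nonempty → 0 < r' → r' < r → HasReach r S →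
  Pushable r' S

/-- points at the end of a push map are joined to the outside -/
def T_JNO : Prop := ∀ (Ω S : Set E) (r r' : ℝ) (H : ℝ → E → E) (x : E), Bornology.IsBounded Ω → IsCrack Ω S →
  0 < r' → r' < r → PushMap r S H → x ∉ S →
  (connectedComponentIn {y | r' < infDist y S} (H 1 x) ∩ (closure Ω)ᶜ).Nonempty

/-- points near the boundary are joined to the outside -/
def T_LAY : Prop := ∀ (Ω S : Set E) (r r' s : ℝ) (x : E), Dom Ω → S.Nonempty → 0 < r' → 0 < s → r' + s < r →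
  (∀ y ∈ S, r ≤ infDist y (frontier Ω)) → x ∈ Ω → infDist x (frontier Ω) ≤ s →
  r' < infDist x S ∧ (connectedComponentIn {y | r' < infDist y S} x ∩ (closure Ω)ᶜ).Nonempty

/-! ## C: sign functions -/

/-- the germs at `y` of two functions agree off `Y` -/
def GE (Y : Set E) (s s' : E → ℤˣ) (y : E) : Prop := ∃ W : Set E, IsOpen W ∧ y ∈ W ∧ ∀ z ∈ W \ Y, s z = s' z

/-- the sections of the pull-back of a sign sheaf along `f`, relative to the reference germs `ρ` -/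
def PBk {V : Type} [TopologicalSpace V] (O Y : Set E) (P : Set E → (E → ℤˣ) → Prop) (f : V → E)
    (ρ : E → E → ℤˣ) (W : Set V) (s : V → ℤˣ) : Prop :=
  ∀ v ∈ W, ∃ (T : Set E) (t : E → ℤˣ) (W' : Set V), IsOpen T ∧ T ⊆ O ∧ P T t ∧ IsOpen W' ∧ v ∈ W' ∧
    (∀ w ∈ W', f w ∈ T) ∧ ∀ w ∈ W', GE Y (fun z => s w * ρ (f w) z) t (f w)

/-- pull-backs of sign sheaves are sign sheaves -/
def T_PBS : Prop := ∀ (V : Type) [TopologicalSpace V] (O Y : Set E) (P : Set E → (E → ℤˣ) → Prop) (f : V → E)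
  (ρ : E → E → ℤˣ) (O' : Set V), IsOpen O → SignSheaf O Y P → IsOpen O' → ContinuousOn f O' →
  (∀ v ∈ O', f v ∈ O) → (∀ y ∈ O, ∃ T : Set E, IsOpen T ∧ y ∈ T ∧ T ⊆ O ∧ P T (ρ y)) →
  SignSheaf O' ∅ (PBk O Y P f ρ)

/-- global sections from deformations -/
def T_LFT : Prop := ∀ (O Y V : Set E) (P : Set E → (E → ℤˣ) → Prop) (H : ℝ → E → E) (s1 : E → ℤˣ), IsOpen O →
  SignSheaf O Y P → ContinuousOn (fun q : ℝ × E => H q.1 q.2) (Icc 0 1 ×ˢ O) → (∀ x ∈ O, H 0 x = x) →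
  (∀ t ∈ Icc (0 : ℝ) 1, ∀ x ∈ O, H t x ∈ O) → IsOpen V → V ⊆ O → (∀ x ∈ O, H 1 x ∈ V) → P V s1 →
  ∃ s : E → ℤˣ, P O s

/-- good sign functions form a sign sheaf -/
def T_SSH : Prop := ∀ O Y : Set E, IsOpen O → (∀ p ∈ O, AN Y p) → SignSheaf O Y (fun W s => Good Y W s)

/-- products of good sign functions of disjoint sets -/
def T_SGM : Prop := ∀ (Y Z W : Set E) (s t : E → ℤˣ), IsOpen W → (∀ p ∈ W, AN Y p) → (∀ p ∈ W, AN Z p) →
  (∀ p ∈ W, ∃ N ∈ 𝓝 p, Y ∩ N = ∅ ∨ Z ∩ N = ∅) → Good Y W s → Good Z W t → Good (Y ∪ Z) W (fun x => s x * t x)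

/-- global good sign functions on the complement of the crack -/
def T_SGQ : Prop := ∀ (Ω S Yi : Set E) (H : ℝ → E → E) (r r1 s0 : ℝ), Dom Ω → IsCompact S → S.Nonempty → S ⊆ Ω →
  (∀ x ∈ S, r ≤ infDist x (frontier Ω)) → 0 < s0 → 2 * s0 < r → Yi ⊆ Ω \ S → (∀ p ∉ S, AN Yi p) →
  (∀ x ∈ Yi, s0 ≤ infDist x (frontier Ω) → 2 * s0 < infDist x (frontier Ω)) → PushMap r1 S H →
  (∀ x ∉ S, H 1 x ∈ Yi → infDist (H 1 x) (frontier Ω) < s0) → ∃ sg : E → ℤˣ, Good Yi Sᶜ sg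

/-! ## D: assembly -/

/-- a crack whose invisible pieces have global sign functions has no graph points in its invisible set -/
def T_NGQ : Prop := ∀ (N : ℕ) (Ω S : Set E) (σ : Measure E) (ν : E → E) (ψ h τ : Fin N → E → ℝ), Dom Ω →
  IsSurf Ω σ ν → Fam Ω σ ν ψ → IsCrack Ω S → (∀ i, Harm (Ω \ S) (h i)) →
  (∀ i, Sol Ω S σ ν (ψ i) (h i) (gr (h i)) (τ i)) →
  (∀ Yi : Set E, Yi ⊆ Inv (Ω \ S) h → (∀ p ∉ S, AN Yi p) → ∃ sg : E → ℤˣ, Good Yi Sᶜ sg) →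
  ∀ p : E, ¬ GrPt (Inv (Ω \ S) h) p

/-- a crack `S` with the same measurements as a crack `S'` without graph points is contained in `S'` -/
def T_CSP : Prop := ∀ (N : ℕ) (Ω S S' : Set E) (σ : Measure E) (ν : E → E) (ψ h h' τ τ' : Fin N → E → ℝ), Dom Ω →
  IsSurf Ω σ ν → Fam Ω σ ν ψ → IsCrack Ω S → IsCrack Ω S' →
  (∀ i, Harm (Ω \ S) (h i)) → (∀ i, Sol Ω S σ ν (ψ i) (h i) (gr (h i)) (τ i)) →
  (∀ i, Harm (Ω \ S') (h' i)) → (∀ i, Sol Ω S' σ ν (ψ i) (h' i) (gr (h' i)) (τ' i)) →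
  (∀ i, ∀ x ∈ Ω, x ∉ S → x ∉ S' → h i x = h' i x) → (∀ p : E, ¬ GrPt (Inv (Ω \ S') h') p) → S ⊆ S'

/-- small neighbourhoods of points of the edge are not disconnected by the crack -/
def T_EDW : Prop := ∀ (Ω S : Set E) (q : E), IsCrack Ω S → q ∈ edgePts S → ∀ N ∈ 𝓝 q, ∃ W : Set E, IsOpen W ∧
  q ∈ W ∧ W ⊆ N ∧ IsPreconnected W ∧ IsPreconnected (W \ S)

/-- the edge of `S'` is contained in `S` -/
def T_CSE : Prop := ∀ (N : ℕ) (Ω S S' : Set E) (σ : Measure E) (ν : E → E) (ψ h h' τ τ' : Fin N → E → ℝ), Dom Ω →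
  IsSurf Ω σ ν → Fam Ω σ ν ψ → IsCrack Ω S → IsCrack Ω S' →
  (∀ i, Harm (Ω \ S) (h i)) → (∀ i, Sol Ω S σ ν (ψ i) (h i) (gr (h i)) (τ i)) →
  (∀ i, Harm (Ω \ S') (h' i)) → (∀ i, Sol Ω S' σ ν (ψ i) (h' i) (gr (h' i)) (τ' i)) →
  (∀ i, ∀ x ∈ Ω, x ∉ S → x ∉ S' → h i x = h' i x) → (∀ p : E, ¬ GrPt (Inv (Ω \ S') h') p) → S ⊆ S' →
  edgePts S' ⊆ S

/-- complete families remain complete when profiles are added -/
def T_FAX : Prop := ∀ (N M : ℕ) (Ω : Set E) (σ : Measure E) (ν : E → E) (ψ : Fin N → E → ℝ) (χ : Fin M → E → ℝ),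
  Fam Ω σ ν ψ → (∀ i, IsProfile σ (χ i)) → Fam Ω σ ν (Fin.append ψ χ)

/-- the theorem for one value of the parameter -/
def T_FIX : Prop := ∀ (Ω : Set E) (σ : Measure E) (ν : E → E) (r : ℝ), Dom Ω → IsSurf Ω σ ν → 0 < r →
  ∃ (N : ℕ) (ψ : Fin N → E → ℝ), (∀ i, IsProfile σ (ψ i)) ∧ ∀ S S' : Set E, IsCrack Ω S → IsCrack Ω S' →
    Wide r Ω S → Same Ω σ ν ψ S S' → S = S'

/-- from single values of the parameter to one sequence -/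
def T_SEQ : Prop := T_FIX → T_RMN → ∀ (Ω : Set E) (σ : Measure E) (ν : E → E), Dom Ω → IsSurf Ω σ ν →
  ∃ (ψ : ℕ → E → ℝ) (N : ℝ → ℕ), (∀ i, IsProfile σ (ψ i)) ∧ ∀ r > 0, ∀ S S' : Set E, IsCrack Ω S →
    IsCrack Ω S' → Wide r Ω S → Same Ω σ ν (fun i : Fin (N r) => ψ i) S S' → S = S'

end Pool.Agent.H65.AP
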