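import Mathlib
import Pool.Agent.H92.CK.Tools
import Pool.Agent.H65.AP.Targets

/-!
# Insulating cracks under an a priori bound: assembly
-/

open MeasureTheory Set Filter Topology Metric
open scoped ENNReal NNReal ContDiff RealInnerProductSpace

namespace Pool.Agent.H65.AP

open Pool.Agent.H94.IC Pool.Agent.H94.AC Pool.Agent.H92.CK

/-- the distance of a compact subset to the boundary -/
theorem exists_dist_pos {Ω S : Set E} (hD : Dom Ω) (hS : IsCompact S) (hSΩ : S ⊆ Ω) :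
    ∃ d : ℝ, 0 < d ∧ ∀ x ∈ S, d ≤ infDist x (frontier Ω) := by
  rcases S.eq_empty_or_nonempty with rfl | hne
  · exact ⟨1, one_pos, by simp⟩
  · have hfr : (frontier Ω).Nonempty := by
      rw [nonempty_frontier_iff]
      refine ⟨hD.conn.nonempty, fun h1 => ?_⟩
      have := hD.bdd
      rw [h1] at this
      exact NormedSpace.unbounded_univ ℝ E this
    obtain ⟨x, hx, hmin⟩ := hS.exists_isMinOn hne (continuous_infDist_pt (frontier Ω)).continuousOn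
    refine ⟨infDist x (frontier Ω), ?_, fun y hy => hmin hy⟩
    rw [← isClosed_frontier.notMem_iff_infDist_pos hfr]
    intro h
    exact (hD.op.inter_frontier_eq ▸ (⟨hSΩ hx, h⟩ : x ∈ Ω ∩ frontier Ω) : x ∈ (∅ : Set E))

/-- a crack without graph points in its invisible set is equal to each crack with the same measurements -/
theorem eq_of_ngp (hCSP : T_CSP) (hCSE : T_CSE) (hSED : T_SED) (hCIR : T_CIR) {N : ℕ} {Ω S S' : Set E}
    {σ : Measure E} {ν : E → E} {ψ h h' τ τ' : Fin N → E → ℝ} (hD : Dom Ω) (hσ : IsSurf Ω σ ν)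
    (hF : Fam Ω σ ν ψ) (hS : IsCrack Ω S) (hS' : IsCrack Ω S')
    (hh : ∀ i, Harm (Ω \ S) (h i)) (hsol : ∀ i, Sol Ω S σ ν (ψ i) (h i) (gr (h i)) (τ i))
    (hh' : ∀ i, Harm (Ω \ S') (h' i)) (hsol' : ∀ i, Sol Ω S' σ ν (ψ i) (h' i) (gr (h' i)) (τ' i))
    (heq : ∀ i, ∀ x ∈ Ω, x ∉ S → x ∉ S' → h i x = h' i x) (hng : ∀ p : E, ¬ GrPt (Inv (Ω \ S) h) p) :
    S = S' := by
  obtain ⟨i0, hi0⟩ := hF.nor 0
  obtain ⟨is, his⟩ := hF.special
  have heq' : ∀ i, ∀ x ∈ Ω, x ∉ S' → x ∉ S → h' i x = h i x := fun i x hx h1 h2 => (heq i x hx h2 h1).symm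
  have hsub : S' ⊆ S := hCSP N Ω S' S σ ν ψ h' h τ' τ hD hσ hF hS' hS hh' hsol' hh hsol heq' hng
  have hed : edgePts S ⊆ S' := hCSE N Ω S' S σ ν ψ h' h τ' τ hD hσ hF hS' hS hh' hsol' hh hsol heq' hng hsub
  have he : edgePts S ⊆ edgePts S' := by
    intro q hq
    rcases hS'.chart q (hed hq) with h1 | h1
    · exact (ein hsub h1.2 hq.2).elim
    · exact h1
  have hE : edgePts S = edgePts S' := (circle_sub hCIR hS'.edge hS.edge he).symm
  refine hSED Ω S S' σ ν ![h is, h i0] ![h' is, h' i0] ![τ is, τ i0] ![τ' is, τ' i0] hD hσ hS hS' hE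
    ?_ ?_ ?_ ?_ ?_
  · intro i
    fin_cases i
    · exact hh is
    · exact hh i0
  · intro i
    fin_cases i
    · have h1 := hsol is
      rw [his] at h1
      exact h1
    · have h1 := hsol i0
      rw [hi0] at h1
      exact h1
  · intro i
    fin_cases i
    · exact hh' is
    · exact hh' i0
  · intro i
    fin_cases i
    · have h1 := hsol' is
      rw [his] at h1
      exact h1
    · have h1 := hsol' i0
      rw [hi0] at h1
      exact h1
  · intro i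
    fin_cases i
    · exact heq is
    · exact heq i0

/-- the rank three property for one crack and one family -/
def RankThree {N : ℕ} (Ω S : Set E) (σ : Measure E) (ν : E → E) (ψ : Fin N → E → ℝ) (a b : ℝ) : Prop :=
  ∀ h τ : Fin N → E → ℝ, (∀ i, Harm (Ω \ S) (h i)) → (∀ i, Sol Ω S σ ν (ψ i) (h i) (gr (h i)) (τ i)) →
    ∀ x ∈ Ω, a < infDist x S → b ≤ infDist x (frontier Ω) →
      (connectedComponentIn {y | a < infDist y S} x ∩ (closure Ω)ᶜ).Nonempty →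
      ¬ ∃ v : E, ‖v‖ = 1 ∧ ∀ i, ⟪gr (h i) x, v⟫ = 0

/-- the main step: `r` bounds the distance to the boundary from below, `r1` is the parameter of the push map, `a` and
`b` are the parameters of the rank three property -/
theorem core (hJNO : T_JNO) (hLAY : T_LAY) (hSGQ : T_SGQ) (hNGQ : T_NGQ) (hCSP : T_CSP) (hCSE : T_CSE)
    (hSED : T_SED) (hCIR : T_CIR) (hHRP : T_HRP) (hEQN : T_EQN) (hRK2 : T_RK2) (hEDC : T_EDC) {N : ℕ}
    {Ω S S' : Set E} {σ : Measure E} {ν : E → E} {ψ : Fin N → E → ℝ} {r r1 a b : ℝ} (hD : Dom Ω)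
    (hσ : IsSurf Ω σ ν) (hF : Fam Ω σ ν ψ) (hS : IsCrack Ω S) (hS' : IsCrack Ω S')
    (hdist : ∀ x ∈ S, r ≤ infDist x (frontier Ω)) (hP : Pushable r1 S) (ha : 0 < a) (har : a < r1) (hb : 0 < b)
    (hab : a + 2 * b < r) (hrk : RankThree Ω S σ ν ψ a b) (hsame : Same Ω σ ν ψ S S') : S = S' := by
  obtain ⟨u, u', F, F', τ, τ', hu, hm, hu', hm', hττ⟩ := hsame
  have hS0 : volume S = 0 := (hEDC Ω S hS).2.2.2.2
  have hS'0 : volume S' = 0 := (hEDC Ω S' hS').2.2.2.2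
  have hne : S.Nonempty := hS.conn.nonempty
  choose h hh _ _ hsol using fun i => hHRP Ω S σ ν (ψ i) (u i) (F i) (τ i) hD.op hD.bdd hσ hS.cpt
    hS.sub hS0 (hu i)
  choose h' hh' _ _ hsol' using fun i => hHRP Ω S' σ ν (ψ i) (u' i) (F' i) (τ' i) hD.op hD.bdd hσ
    hS'.cpt hS'.sub hS'0 (hu' i)
  obtain ⟨i0, hi0⟩ := hF.nor 0
  have heq := (hEQN N Ω S S' σ ν ψ h h' τ τ' i0 hD hσ hS hS' hi0 hh hsol hh' hsol' hττ).2
  obtain ⟨H, hH⟩ := hP
  refine eq_of_ngp hCSP hCSE hSED hCIR hD hσ hF hS hS' hh hsol hh' hsol' heq ?_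
  refine hNGQ N Ω S σ ν ψ h τ hD hσ hF hS hh hsol ?_
  intro Yi hYi hAN
  refine hSGQ Ω S Yi H r r1 b hD hS.cpt hne hS.sub hdist hb (by linarith) (fun x hx => (hYi hx).1) hAN ?_ hH ?_
  · intro x hx hx1
    by_contra hx2
    rw [not_lt] at hx2
    obtain ⟨h1, h2⟩ := hLAY Ω S r a (2 * b) x hD hne ha (by linarith) hab hdist (hYi hx).1.1 hx2
    exact hrk h τ hh hsol x (hYi hx).1.1 h1 hx1 h2 (hRK2 N (Ω \ S) h x (hYi hx))
  · intro x hx hxY
    by_contra hx2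
    rw [not_lt] at hx2
    exact hrk h τ hh hsol (H 1 x) (hYi hxY).1.1 (har.trans_le (hH.far x hx)) hx2
      (hJNO Ω S r1 a H x hD.bdd hS ha har hH hx) (hRK2 N (Ω \ S) h (H 1 x) (hYi hxY))

theorem pf_FIX (hFAM : T_FAM) (hRKT : T_RKT) (hFAX : T_FAX) (hRMN : T_RMN) (hPSH : T_PSH) (hJNO : T_JNO)
    (hLAY : T_LAY) (hSGQ : T_SGQ) (hNGQ : T_NGQ) (hCSP : T_CSP) (hCSE : T_CSE)
    (hSED : T_SED) (hCIR : T_CIR) (hHRP : T_HRP) (hEQN : T_EQN) (hRK2 : T_RK2) (hEDC : T_EDC) : T_FIX := by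
  intro Ω σ ν r hD hσ hr
  obtain ⟨N, ψ, hF⟩ := hFAM Ω σ ν hD hσ
  obtain ⟨M, χ, hχ, hrk⟩ := hRKT Ω σ ν (r / 8) hD hσ (by positivity)
  have hFF : Fam Ω σ ν (Fin.append ψ χ) := hFAX N M Ω σ ν ψ χ hF hχ
  refine ⟨N + M, Fin.append ψ χ, hFF.prof, ?_⟩
  intro S S' hS hS' hW hsame
  have hP : Pushable (r / 2) S := by
    rcases hW.1 with h1 | h1
    · exact hPSH S r (r / 2) hS.cpt hS.conn.nonempty (by positivity) (by linarith) h1
    · exact (hRMN S r (r / 2) hS.cpt.isClosed (by positivity) (by linarith)).2 h1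
  have hS0 : volume S = 0 := (hEDC Ω S hS).2.2.2.2
  refine core (r := r) (r1 := r / 2) (a := r / 8) (b := r / 8) hJNO hLAY hSGQ hNGQ hCSP hCSE hSED hCIR hHRP hEQN
    hRK2 hEDC hD hσ hFF hS hS' hW.2 hP (by positivity) (by linarith) (by positivity) (by linarith) ?_ hsame
  intro h τ hh hsol x hx h1 h2 h3
  rintro ⟨v, hv1, hv2⟩
  refine hrk S (fun i => h (Fin.natAdd N i)) (fun i => τ (Fin.natAdd N i)) hS.cpt hS.conn.nonempty hS.sub hS0
    (fun y hy => le_trans (by linarith) (hW.2 y hy)) (fun i => hh _) (fun i => ?_) x hx h1 h2 h3 ⟨v, hv1, fun i => hv2 _⟩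
  have h4 := hsol (Fin.natAdd N i)
  rw [Fin.append_right] at h4
  exact h4

theorem pf_APR (hFIX : T_FIX) (hSEQ : T_SEQ) (hRMN : T_RMN) (hRCH : T_RCH) : T_APR := by
  intro Ω σ ν hD hσ
  refine ⟨hSEQ hFIX hRMN Ω σ ν hD hσ, fun S hS => ?_⟩
  obtain ⟨r, hr, hR⟩ := hRCH Ω S hS
  obtain ⟨d, hd, hdS⟩ := exists_dist_pos hD hS.cpt hS.sub
  have hm : 0 < min r d := lt_min hr hd
  have hR' : HasReach (min r d) S := (hRMN S r (min r d) hS.cpt.isClosed hm (min_le_left _ _)).1 hR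
  exact ⟨min r d, hm, hR', Or.inl hR', fun x hx => (min_le_right _ _).trans (hdS x hx)⟩

end Pool.Agent.H65.AP
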