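import Mathlib
import Pool.Agent.H92.CK.Stmt
import Pool.Agent.H65.AP.Defs

/-!
# Insulating cracks under a scale invariant a priori bound (MP_0ee698_an): definitions
-/

open MeasureTheory Set Filter Topology Metric
open scoped ENNReal NNReal ContDiff RealInnerProductSpace

namespace Pool.Agent.H65.AP

open Pool.Agent.H94.IC Pool.Agent.H92.CK

/-- the scale invariant a priori class: the reach of the crack is at least `r` times its diameter, or its complement
can be pushed away from it to the distance `r` times its diameter; and the crack has distance at least `r` from the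
boundary of the domain -/
def Fat (r : ℝ) (Ω S : Set E) : Prop :=
  (HasReach (r * diam S) S ∨ Pushable (r * diam S) S) ∧ ∀ x ∈ S, r ≤ infDist x (frontier Ω)

/-- THE THEOREM: there is one sequence of current profiles whose first `N r` members distinguish all cracks in the
class with parameter `r` from all admissible cracks; and all cracks are in such a class -/
def T_APF : Prop := ∀ (Ω : Set E) (σ : Measure E) (ν : E → E), Dom Ω → IsSurf Ω σ ν →
  (∃ (ψ : ℕ → E → ℝ) (N : ℝ → ℕ), (∀ i, IsProfile σ (ψ i)) ∧ ∀ r > 0, ∀ S S' : Set E, IsCrack Ω S →
    IsCrack Ω S' → Fat r Ω S → Same Ω σ ν (fun i : Fin (N r) => ψ i) S S' → S = S') ∧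
  ∀ S : Set E, IsCrack Ω S → ∃ r > 0, HasReach (r * diam S) S ∧ Fat r Ω S

end Pool.Agent.H65.AP
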