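import Mathlib
import Pool.Agent.H65.AP.Core
import Pool.Agent.H65.AP.Fat
import Pool.Agent.H70.APS.Targets

/-!
# Insulating cracks under a scale invariant a priori bound: assembly
-/

open MeasureTheory Set Filter Topology Metric
open scoped ENNReal NNReal ContDiff RealInnerProductSpace

namespace Pool.Agent.H65.AP

open Pool.Agent.H94.IC Pool.Agent.H94.AC Pool.Agent.H92.CK

/-- subfamilies -/
theorem same_sub {N M : ℕ} {Ω : Set E} {σ : Measure E} {ν : E → E} {ψ : Fin N → E → ℝ} {χ : Fin M → E → ℝ}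
    (f : Fin N → Fin M) (hf : ∀ i, χ (f i) = ψ i) {S S' : Set E} (h : Same Ω σ ν χ S S') : Same Ω σ ν ψ S S' := by
  obtain ⟨u, u', F, F', τ, τ', hu, hm, hu', hm', hττ⟩ := h
  refine ⟨fun i => u (f i), fun i => u' (f i), fun i => F (f i), fun i => F' (f i), fun i => τ (f i),
    fun i => τ' (f i), fun i => ?_, fun i => hm _, fun i => ?_, fun i => hm' _, fun i => hττ _⟩
  · rw [← hf i]; exact hu (f i)
  · rw [← hf i]; exact hu' (f i)

/-- the zero function is a profile -/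
theorem prof_zero (σ : Measure E) : IsProfile σ fun _ => 0 := ⟨MemLp.zero, by simp⟩

/-- from single values of the parameter to one sequence -/
theorem seq_general {Ω : Set E} {σ : Measure E} {ν : E → E} (C : ℝ → Set E → Prop)
    (hmono : ∀ (r r' : ℝ) (S : Set E), IsCrack Ω S → 0 < r' → r' ≤ r → C r S → C r' S)
    (hfix : ∀ r : ℝ, 0 < r → ∃ (N : ℕ) (ψ : Fin N → E → ℝ), (∀ i, IsProfile σ (ψ i)) ∧
      ∀ S S' : Set E, IsCrack Ω S → IsCrack Ω S' → C r S → Same Ω σ ν ψ S S' → S = S') :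
    ∃ (ψ : ℕ → E → ℝ) (N : ℝ → ℕ), (∀ i, IsProfile σ (ψ i)) ∧ ∀ r > 0, ∀ S S' : Set E, IsCrack Ω S →
      IsCrack Ω S' → C r S → Same Ω σ ν (fun i : Fin (N r) => ψ i) S S' → S = S' := by
  classical
  choose M χ hχ hM using fun k : ℕ => hfix (1 / ((k : ℝ) + 1)) (by positivity)
  refine ⟨fun n => if hn : (Nat.unpair n).2 < M (Nat.unpair n).1 then χ (Nat.unpair n).1 ⟨(Nat.unpair n).2, hn⟩
    else fun _ => 0, fun r => Nat.pair ⌈1 / r⌉₊ (M ⌈1 / r⌉₊) + 1, ?_, ?_⟩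
  · intro i
    by_cases hn : (Nat.unpair i).2 < M (Nat.unpair i).1
    · simp only [hn, dif_pos]
      exact hχ _ _
    · simp only [hn, dif_neg, not_false_eq_true]
      exact prof_zero σ
  · intro r hr S S' hS hS' hC hsame
    have hk : 1 / ((⌈1 / r⌉₊ : ℝ) + 1) ≤ r := by
      have h1 : 1 / r ≤ (⌈1 / r⌉₊ : ℝ) := Nat.le_ceil _
      rw [div_le_iff₀ (by positivity)]
      rw [div_le_iff₀ hr] at h1
      nlinarith
    refine hM ⌈1 / r⌉₊ S S' hS hS' (hmono r _ S hS (by positivity) hk hC) ?_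
    refine same_sub (fun i => ⟨Nat.pair ⌈1 / r⌉₊ i, ?_⟩) (fun i => ?_) hsame
    · show Nat.pair ⌈1 / r⌉₊ (i : ℕ) < Nat.pair ⌈1 / r⌉₊ (M ⌈1 / r⌉₊) + 1
      have := Nat.pair_lt_pair_right ⌈1 / r⌉₊ i.2
      omega
    · have h1 : (Nat.unpair (Nat.pair ⌈1 / r⌉₊ (i : ℕ))).2 < M (Nat.unpair (Nat.pair ⌈1 / r⌉₊ (i : ℕ))).1 := by
        rw [Nat.unpair_pair]; exact i.2
      simp only [h1, dif_pos]
      have h2 : ∀ (a b : ℕ) (hb : b < M a), a = ⌈1 / r⌉₊ → b = (i : ℕ) → χ a ⟨b, hb⟩ = χ ⌈1 / r⌉₊ i := by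
        rintro a b hb rfl rfl
        rfl
      exact h2 _ _ h1 (by rw [Nat.unpair_pair]) (by rw [Nat.unpair_pair])

/-- cracks have positive diameter -/
theorem diam_pos {Ω S : Set E} (hS : IsCrack Ω S) : 0 < diam S := by
  obtain ⟨γ, -, hγi, hγr⟩ := hS.edge
  have hsub : ∀ z, γ z ∈ S := by
    intro z
    have : γ z ∈ edgePts S := hγr ▸ mem_range_self z
    exact this.1
  have hne : γ 1 ≠ γ (-1) := by
    intro h
    have h1 := hγi h
    have h2 := congrArg (fun z : Circle => (z : ℂ)) h1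
    simp only [Circle.coe_one] at h2
    have h3 : ((-1 : Circle) : ℂ) = -1 := rfl
    rw [h3] at h2
    norm_num at h2
  have h1 : dist (γ 1) (γ (-1)) ≤ diam S := dist_le_diam_of_mem hS.cpt.isBounded (hsub _) (hsub _)
  exact (dist_pos.2 hne).trans_le h1

theorem pf_FXF (hFAM : T_FAM) (hRKS : Pool.Agent.H70.APS.T_RKS) (hFAX : T_FAX) (hRMN : T_RMN) (hPSH : T_PSH)
    (hJNO : T_JNO) (hLAY : T_LAY) (hSGQ : T_SGQ) (hNGQ : T_NGQ) (hCSP : T_CSP) (hCSE : T_CSE)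
    (hSED : T_SED) (hCIR : T_CIR) (hHRP : T_HRP) (hEQN : T_EQN) (hRK2 : T_RK2) (hEDC : T_EDC)
    (Ω : Set E) (σ : Measure E) (ν : E → E) (hD : Dom Ω) (hσ : IsSurf Ω σ ν) (r : ℝ) (hr : 0 < r) :
    ∃ (N : ℕ) (ψ : Fin N → E → ℝ), (∀ i, IsProfile σ (ψ i)) ∧ ∀ S S' : Set E, IsCrack Ω S → IsCrack Ω S' →
      Fat r Ω S → Same Ω σ ν ψ S S' → S = S' := by
  obtain ⟨N, ψ, hF⟩ := hFAM Ω σ ν hD hσ
  have hdΩ : 0 ≤ diam Ω := diam_nonneg
  set c : ℝ := r / (8 * (diam Ω + 1)) with hc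
  have hc0 : 0 < c := by positivity
  have hc1 : c ≤ r / 8 := by
    rw [hc]
    refine div_le_div_of_nonneg_left hr.le (by norm_num) (by nlinarith)
  obtain ⟨M, χ, hχ, hrk⟩ := hRKS Ω σ ν c (r / 8) hD hσ hc0 (by positivity)
  have hFF : Fam Ω σ ν (Fin.append ψ χ) := hFAX N M Ω σ ν ψ χ hF hχ
  refine ⟨N + M, Fin.append ψ χ, hFF.prof, ?_⟩
  intro S S' hS hS' hW hsame
  have hdS := diam_pos hS
  have hdle : diam S ≤ diam Ω := diam_mono hS.sub hD.bdd
  have hrd : 0 < r * diam S := mul_pos hr hdS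
  have hP : Pushable (r * diam S / 2) S := by
    rcases hW.1 with h1 | h1
    · exact hPSH S (r * diam S) _ hS.cpt hS.conn.nonempty (by positivity) (by linarith) h1
    · exact (hRMN S (r * diam S) _ hS.cpt.isClosed (by positivity) (by linarith)).2 h1
  have hS0 : volume S = 0 := (hEDC Ω S hS).2.2.2.2
  have ha : c * diam S ≤ r / 8 := by
    have h1 : c * (diam Ω + 1) = r / 8 := by
      rw [hc]; field_simp
    nlinarith
  have ha2 : c * diam S < r * diam S / 2 := by nlinarith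
  refine core (r := r) (r1 := r * diam S / 2) (a := c * diam S) (b := r / 8) hJNO hLAY hSGQ hNGQ hCSP hCSE hSED hCIR
    hHRP hEQN hRK2 hEDC hD hσ hFF hS hS' hW.2 hP (by positivity) ha2 (by positivity) (by linarith) ?_ hsame
  intro h τ hh hsol x hx h1 h2 h3
  rintro ⟨v, hv1, hv2⟩
  refine hrk S (fun i => h (Fin.natAdd N i)) (fun i => τ (Fin.natAdd N i)) hS.cpt hS.sub hS0 hdS
    (fun y hy => le_trans (by linarith) (hW.2 y hy)) (fun i => hh _) (fun i => ?_) x hx h1 h2 h3 ⟨v, hv1, fun i => hv2 _⟩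
  have h4 := hsol (Fin.natAdd N i)
  rw [Fin.append_right] at h4
  exact h4

theorem pf_APF (hFAM : T_FAM) (hRKS : Pool.Agent.H70.APS.T_RKS) (hFAX : T_FAX) (hRMN : T_RMN) (hPSH : T_PSH)
    (hJNO : T_JNO) (hLAY : T_LAY) (hSGQ : T_SGQ) (hNGQ : T_NGQ) (hCSP : T_CSP) (hCSE : T_CSE)
    (hSED : T_SED) (hCIR : T_CIR) (hHRP : T_HRP) (hEQN : T_EQN) (hRK2 : T_RK2) (hEDC : T_EDC) (hRCH : T_RCH) :
    T_APF := by
  intro Ω σ ν hD hσ
  have hmono : ∀ (r r' : ℝ) (S : Set E), IsCrack Ω S → 0 < r' → r' ≤ r → Fat r Ω S → Fat r' Ω S := by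
    intro r r' S hS hr' hle hW
    have hdS := diam_pos hS
    have h1 := hRMN S (r * diam S) (r' * diam S) hS.cpt.isClosed (mul_pos hr' hdS)
      (mul_le_mul_of_nonneg_right hle hdS.le)
    exact ⟨hW.1.imp h1.1 h1.2, fun x hx => hle.trans (hW.2 x hx)⟩
  refine ⟨seq_general (fun r S => Fat r Ω S) hmono fun r hr => ?_, fun S hS => ?_⟩
  · exact pf_FXF hFAM hRKS hFAX hRMN hPSH hJNO hLAY hSGQ hNGQ hCSP hCSE hSED hCIR hHRP hEQN hRK2 hEDC Ω σ ν hD hσ
      r hr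
  · obtain ⟨r, hr, hR⟩ := hRCH Ω S hS
    obtain ⟨d, hd, hdS⟩ := exists_dist_pos hD hS.cpt hS.sub
    have hdi := diam_pos hS
    have hm : 0 < min (r / diam S) d := lt_min (div_pos hr hdi) hd
    have hle : min (r / diam S) d * diam S ≤ r := by
      have := mul_le_mul_of_nonneg_right (min_le_left (r / diam S) d) hdi.le
      rwa [div_mul_cancel₀ _ hdi.ne'] at this
    have hR' : HasReach (min (r / diam S) d * diam S) S :=
      (hRMN S r _ hS.cpt.isClosed (mul_pos hm hdi) hle).1 hR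
    exact ⟨min (r / diam S) d, hm, hR', Or.inl hR', fun x hx => (min_le_right _ _).trans (hdS x hx)⟩

end Pool.Agent.H65.AP
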