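import Mathlib
import Pool.Agent.H65.AP.Targets

/-!
# Module LFT: global sections from deformations
-/

open MeasureTheory Set Filter Topology Metric
open scoped ENNReal NNReal ContDiff RealInnerProductSpace

namespace Pool.Agent.H65.AP

open Pool.Agent.H94.IC Pool.Agent.H94.AC Pool.Agent.H92.CK

theorem sheaf_restr {X : Type} [TopologicalSpace X] {O Y : Set X} {P : Set X → (X → ℤˣ) → Prop}
    (h : SignSheaf O Y P) {W W' : Set X} {s : X → ℤˣ} (hW : IsOpen W) (hWO : W ⊆ O)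
    (hW' : IsOpen W') (hsub : W' ⊆ W) (hs : P W s) : P W' s :=
  h.glue W' s hW' (hsub.trans hWO) fun _ hx => ⟨W, hW, hsub hx, hWO, hs⟩

theorem pf_LFT (hPBS : T_PBS) (hUNI : T_UNI) (hGLS : T_GLS) : T_LFT := by
  classical
  intro O Y V P H s1 hO hP hHc hH0 hHO hV hVO hH1 hs1
  -- reference germs
  choose R rr hR1 hR2 hR3 hR4 using hP.ex
  let ρ : E → E → ℤˣ := fun y => if hy : y ∈ O then rr y hy else fun _ => 1
  have hρ : ∀ y (hy : y ∈ O), ρ y = rr y hy := fun y hy => dif_pos hy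
  have hρs : ∀ y ∈ O, ∃ T : Set E, IsOpen T ∧ y ∈ T ∧ T ⊆ O ∧ P T (ρ y) := by
    intro y hy
    refine ⟨R y hy, hR1 y hy, hR2 y hy, hR3 y hy, ?_⟩
    rw [hρ y hy]
    exact hR4 y hy
  -- the map
  let f : ℝ × E → E := fun q => H (max 0 (min q.1 1)) q.2
  have hfc : ContinuousOn f (univ ×ˢ O) := by
    have h1 : Continuous fun q : ℝ × E => ((max 0 (min q.1 1) : ℝ), q.2) := by fun_prop
    refine hHc.comp (f := fun q : ℝ × E => ((max 0 (min q.1 1) : ℝ), q.2)) h1.continuousOn ?_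
    intro q hq
    exact ⟨⟨le_max_left _ _, max_le zero_le_one (min_le_right _ _)⟩, hq.2⟩
  have hfO : ∀ q ∈ (univ : Set ℝ) ×ˢ O, f q ∈ O := by
    intro q hq
    exact hHO _ ⟨le_max_left _ _, max_le zero_le_one (min_le_right _ _)⟩ _ hq.2
  have hf1 : ∀ q : ℝ × E, 1 < q.1 → f q = H 1 q.2 := by
    intro q hq
    have : max (0 : ℝ) (min q.1 1) = 1 := by rw [min_eq_right hq.le]; exact max_eq_right zero_le_one
    show H (max 0 (min q.1 1)) q.2 = _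
    rw [this]
  have hf0 : ∀ x ∈ O, f (-1, x) = x := by
    intro x hx
    have : max (0 : ℝ) (min (-1) 1) = 0 := by norm_num
    show H (max 0 (min (-1) 1)) x = _
    rw [this]
    exact hH0 x hx
  -- the pulled back sheaves
  have hQ : ∀ B : Set E, IsOpen B → B ⊆ O → SignSheaf ((univ : Set ℝ) ×ˢ B) ∅ (PBk O Y P f ρ) := by
    intro B hB hBO
    refine hPBS (ℝ × E) O Y P f ρ _ hO hP (isOpen_univ.prod hB) (hfc.mono (prod_mono_right hBO)) ?_ hρs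
    intro v hv
    exact hfO v ⟨mem_univ _, hBO hv.2⟩
  have hmono : ∀ (W W' : Set (ℝ × E)) (s : ℝ × E → ℤˣ), W' ⊆ W → PBk O Y P f ρ W s → PBk O Y P f ρ W' s :=
    fun W W' s hs hW v hv => hW v (hs hv)
  -- comparison with the reference germs
  have hcmp : ∀ y ∈ O, ∀ (T : Set E) (t : E → ℤˣ), IsOpen T → y ∈ T → T ⊆ O → P T t →
      ∃ c : ℤˣ, GE Y (fun z => c * ρ y z) t y := by
    intro y hy T t hT hyT hTO ht
    obtain ⟨T', hT', hyT', hTO', ht'⟩ := hρs y hy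
    have h1 := sheaf_restr hP hT hTO (hT.inter hT') inter_subset_left ht
    have h2 := sheaf_restr hP hT' hTO' (hT.inter hT') inter_subset_right ht'
    obtain ⟨W, hW, hyW, -, h3⟩ := hP.uniq (T ∩ T') (ρ y) t (hT.inter hT') (inter_subset_left.trans hTO) h2 h1 y
      ⟨hyT, hyT'⟩
    rcases h3 with h3 | h3
    · refine ⟨1, W, hW, hyW, fun z hz => ?_⟩
      show 1 * ρ y z = t z
      rw [one_mul]
      exact h3 z hz
    · refine ⟨-1, W, hW, hyW, fun z hz => ?_⟩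
      show -1 * ρ y z = t z
      rw [h3 z hz]
      simp
  -- the section over large times
  have hc1 : ∀ w : ℝ × E, ∃ c : ℤˣ, w ∈ (Ioi (1 : ℝ)) ×ˢ O → GE Y (fun z => c * ρ (f w) z) s1 (f w) := by
    intro w
    by_cases hw : w ∈ (Ioi (1 : ℝ)) ×ˢ O
    · have h1 : f w ∈ V := by rw [hf1 w hw.1]; exact hH1 _ hw.2
      obtain ⟨c, hc⟩ := hcmp (f w) (hVO h1) V s1 hV h1 hVO hs1
      exact ⟨c, fun _ => hc⟩
    · exact ⟨1, fun h => absurd h hw⟩
  choose c1 hc1 using hc1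
  have hQ1 : PBk O Y P f ρ ((Ioi (1 : ℝ)) ×ˢ O) c1 := by
    intro v hv
    refine ⟨V, s1, (Ioi (1 : ℝ)) ×ˢ O, hV, hVO, hs1, isOpen_Ioi.prod hO, hv, ?_, hc1⟩
    intro w hw
    rw [hf1 w hw.1]
    exact hH1 _ hw.2
  -- local sections over balls, normalised at large times
  have hloc : ∀ x : E, ∃ (ε : ℝ) (s : ℝ × E → ℤˣ), x ∈ O → 0 < ε ∧ ball x ε ⊆ O ∧
      PBk O Y P f ρ (univ ×ˢ ball x ε) s ∧ ∀ w ∈ (Ioi (1 : ℝ)) ×ˢ ball x ε, s w = c1 w := by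
    intro x
    by_cases hx : x ∈ O
    swap
    · exact ⟨1, fun _ => 1, fun h => absurd h hx⟩
    obtain ⟨ε, hε, hB⟩ := Metric.isOpen_iff.1 hO x hx
    have hsh := hQ (ball x ε) isOpen_ball hB
    have hconv : Convex ℝ ((univ : Set ℝ) ×ˢ ball x ε) := convex_univ.prod (convex_ball x ε)
    have hmem : ((0 : ℝ), x) ∈ (univ : Set ℝ) ×ˢ ball x ε := ⟨mem_univ _, mem_ball_self hε⟩
    obtain ⟨s, hs⟩ := hGLS (ℝ × E) _ ∅ _ ((0 : ℝ), x) (isOpen_univ.prod isOpen_ball) hmem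
      (hconv.starConvex hmem) hsh
    have hsub : (Ioi (1 : ℝ)) ×ˢ ball x ε ⊆ (univ : Set ℝ) ×ˢ ball x ε := prod_mono_left (subset_univ _)
    have hsub' : (Ioi (1 : ℝ)) ×ˢ ball x ε ⊆ (Ioi (1 : ℝ)) ×ˢ O := prod_mono_right hB
    have hpre : IsPreconnected ((Ioi (1 : ℝ)) ×ˢ ball x ε) :=
      ((convex_Ioi 1).prod (convex_ball x ε)).isPreconnected
    rcases hUNI (ℝ × E) _ ∅ _ _ s c1 hsh (isOpen_Ioi.prod isOpen_ball) hpre hsub (hmono _ _ _ hsub hs)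
      (hmono _ _ _ hsub' hQ1) with h1 | h1
    · exact ⟨ε, s, fun _ => ⟨hε, hB, hs, fun w hw => h1 w ⟨hw, notMem_empty w⟩⟩⟩
    · refine ⟨ε, fun w => - s w, fun _ => ⟨hε, hB, hsh.neg _ s (isOpen_univ.prod isOpen_ball) Subset.rfl hs,
        fun w hw => ?_⟩⟩
      show - s w = c1 w
      rw [h1 w ⟨hw, notMem_empty w⟩, neg_neg]
  choose ε s hs using hloc
  -- compatibility
  have hcomp : ∀ x0 ∈ O, ∀ x ∈ ball x0 (ε x0), s x0 (-1, x) = s x (-1, x) := by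
    intro x0 hx0 x hx
    obtain ⟨e1, b1, q1, n1⟩ := hs x0 hx0
    have hxO : x ∈ O := b1 hx
    obtain ⟨e2, b2, q2, n2⟩ := hs x hxO
    have hBo : IsOpen (ball x0 (ε x0) ∩ ball x (ε x)) := isOpen_ball.inter isOpen_ball
    have hsh := hQ _ hBo (inter_subset_left.trans b1)
    have hpre : IsPreconnected ((univ : Set ℝ) ×ˢ (ball x0 (ε x0) ∩ ball x (ε x))) :=
      (convex_univ.prod ((convex_ball _ _).inter (convex_ball _ _))).isPreconnected
    have hxx : x ∈ ball x0 (ε x0) ∩ ball x (ε x) := ⟨hx, mem_ball_self e2⟩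
    rcases hUNI (ℝ × E) _ ∅ _ _ (s x0) (s x) hsh (isOpen_univ.prod hBo) hpre Subset.rfl
      (hmono _ _ _ (prod_mono_right inter_subset_left) q1)
      (hmono _ _ _ (prod_mono_right inter_subset_right) q2) with h1 | h1
    · exact h1 (-1, x) ⟨⟨mem_univ _, hxx⟩, notMem_empty _⟩
    · exfalso
      have h2 := h1 (2, x) ⟨⟨mem_univ _, hxx⟩, notMem_empty _⟩
      have h3 : ((2 : ℝ), x) ∈ (Ioi (1 : ℝ)) ×ˢ ball x0 (ε x0) := ⟨by norm_num, hx⟩
      have h4 : ((2 : ℝ), x) ∈ (Ioi (1 : ℝ)) ×ˢ ball x (ε x) := ⟨by norm_num, mem_ball_self e2⟩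
      rw [n1 _ h3, n2 _ h4] at h2
      rcases Int.units_eq_one_or (c1 (2, x)) with h5 | h5 <;> rw [h5] at h2 <;> exact absurd h2 (by decide)
  -- the global section
  refine ⟨fun x => s x (-1, x) * ρ x x, ?_⟩
  refine hP.glue O _ hO Subset.rfl fun x0 hx0 => ?_
  obtain ⟨e1, b1, q1, n1⟩ := hs x0 hx0
  obtain ⟨T, t, W', hT, hTO, ht, hW', hvW', hfT, hge⟩ := q1 (-1, x0) ⟨mem_univ _, mem_ball_self e1⟩
  have hsl : Continuous fun x : E => ((-1 : ℝ), x) := by fun_prop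
  have hN : IsOpen (ball x0 (ε x0) ∩ ((fun x : E => ((-1 : ℝ), x)) ⁻¹' W') ∩ T) :=
    (isOpen_ball.inter (hW'.preimage hsl)).inter hT
  have hx0T : x0 ∈ T := by
    have := hfT _ hvW'
    rwa [hf0 x0 hx0] at this
  refine ⟨_, hN, ⟨⟨mem_ball_self e1, hvW'⟩, hx0T⟩, inter_subset_right.trans hTO, ?_⟩
  refine hP.congr _ t _ hN (inter_subset_right.trans hTO)
    (sheaf_restr hP hT hTO hN inter_subset_right ht) ?_
  rintro x ⟨⟨⟨hxB, hxW⟩, hxT⟩, hxY⟩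
  have hxO : x ∈ O := b1 hxB
  obtain ⟨W, hW, hxW2, hW3⟩ := hge (-1, x) hxW
  rw [hf0 x hxO] at hxW2 hW3
  have h5 := hW3 x ⟨hxW2, hxY⟩
  show t x = s x (-1, x) * ρ x x
  rw [← h5, hcomp x0 hx0 x hxB]

end Pool.Agent.H65.AP
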