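import Mathlib
import Pool.Agent.H94.AC.Assembly
import Pool.Agent.H92.CK.All
import Pool.Agent.H97.ICA.CNX
import Pool.Agent.H65.AP.CoreF
import Pool.Agent.H65.AP.PRJ
import Pool.Agent.H65.AP.LFT
import Pool.Agent.H1.AP.SSH
import Pool.Agent.H11.AP.CRL
import Pool.Agent.H11.AP.CTX
import Pool.Agent.H11.AP.MVB
import Pool.Agent.H38.AP.PBS
import Pool.Agent.H38.AP.RKT
import Pool.Agent.H4.AP.NGQ
import Pool.Agent.H40.AP.SGM
import Pool.Agent.H40.AP.UCP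
import Pool.Agent.H46.AP.PSH
import Pool.Agent.H52.AP.RCH
import Pool.Agent.H52.AP.WCH
import Pool.Agent.H60.AP.EDW
import Pool.Agent.H60.AP.PFA
import Pool.Agent.H62.AP.CSE
import Pool.Agent.H62.AP.CSP
import Pool.Agent.H66.AP.FAX
import Pool.Agent.H66.AP.LAY
import Pool.Agent.H76.AP.JNO
import Pool.Agent.H76.AP.WKU
import Pool.Agent.H85.AP.SGQ
import Pool.Agent.H89.AP.HOL
import Pool.Agent.H89.AP.RMN
import Pool.Agent.H95.AP.DNS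
import Pool.Agent.H19.APS.RSC
import Pool.Agent.H37.APS.FAR
import Pool.Agent.H37.APS.LMB
import Pool.Agent.H52.APS.NZM
import Pool.Agent.H52.APS.WHT
import Pool.Agent.H65.APS.MFI
import Pool.Agent.H65.APS.NPT
import Pool.Agent.H65.APS.PRS
import Pool.Agent.H65.APS.SMU
import Pool.Agent.H70.APS.BKD
import Pool.Agent.H70.APS.HPA
import Pool.Agent.H70.APS.HPF
import Pool.Agent.H70.APS.KAP
import Pool.Agent.H70.APS.LNC
import Pool.Agent.H70.APS.NEA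
import Pool.Agent.H70.APS.PRP
import Pool.Agent.H70.APS.RKS
import Pool.Agent.H70.APS.RSD
import Pool.Agent.H70.APS.SMS

/-!
# Insulating cracks under a scale invariant a priori bound (MP_0ee698_an): assembly of the modules
-/

namespace Pool.Agent.H65.AP

open Pool.Agent.H94.IC Pool.Agent.H94.AC Pool.Agent.H92.CK

/-! ## Rank three for a fixed distance -/

theorem r_CRL : T_CRL := Pool.Agent.H11.AP.pf_CRL

theorem r_CTX : T_CTX := Pool.Agent.H11.AP.pf_CTX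

theorem r_MVB : T_MVB := Pool.Agent.H11.AP.pf_MVB

theorem r_PFA : T_PFA := Pool.Agent.H60.AP.pf_PFA r_CRL

theorem r_PRJ : T_PRJ := pf_PRJ r_CRL r_PFA r_MVB p_HSM

theorem r_WKU : T_WKU := Pool.Agent.H76.AP.pf_WKU

theorem r_DNS : T_DNS := Pool.Agent.H95.AP.pf_DNS r_CRL

theorem r_HOL : T_HOL := Pool.Agent.H89.AP.pf_HOL

theorem r_UCP : T_UCP := Pool.Agent.H40.AP.pf_UCP r_CRL r_HOL p_WYL p_HRX p_IDT

theorem r_WCH : T_WCH := Pool.Agent.H52.AP.pf_WCH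

theorem r_RKT : T_RKT := Pool.Agent.H38.AP.pf_RKT r_CTX r_CRL r_PFA r_PRJ r_WKU r_DNS r_UCP r_WCH

/-! ## The layer, signs, comparison of two cracks -/

theorem r_RCH : T_RCH := Pool.Agent.H52.AP.pf_RCH q_EDC

theorem r_RMN : T_RMN := Pool.Agent.H89.AP.pf_RMN

theorem r_PSH : T_PSH := Pool.Agent.H46.AP.pf_PSH

theorem r_JNO : T_JNO := Pool.Agent.H76.AP.pf_JNO Pool.Agent.H97.ICA.cnx

theorem r_LAY : T_LAY := Pool.Agent.H66.AP.pf_LAY p_XCK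

theorem r_PBS : T_PBS := Pool.Agent.H38.AP.pf_PBS

theorem r_LFT : T_LFT := pf_LFT r_PBS p_UNI p_GLS

theorem r_SSH : T_SSH := Pool.Agent.H1.AP.pf_SSH p_RMG p_DCH

theorem r_SGM : T_SGM := Pool.Agent.H40.AP.pf_SGM p_ANL

theorem r_SGQ : T_SGQ := Pool.Agent.H85.AP.pf_SGQ r_SSH p_GLS r_LFT r_SGM p_ANL

theorem r_NGQ : T_NGQ := Pool.Agent.H4.AP.pf_NGQ p_NTV Pool.Agent.H97.ICA.cnx p_INC p_RK2 p_YIN p_ANL p_FLX k_FMB
  p_FM3 q_FMG p_NVC q_EDC p_WNS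

theorem r_CSP : T_CSP := Pool.Agent.H62.AP.pf_CSP Pool.Agent.H97.ICA.cnx p_SQI p_TAN p_SIY p_GPE p_INC p_NTV p_WNS

theorem r_EDW : T_EDW := Pool.Agent.H60.AP.pf_EDW

theorem r_CSE : T_CSE := Pool.Agent.H62.AP.pf_CSE Pool.Agent.H97.ICA.cnx p_SQI r_EDW p_TAN p_SIY p_GPE p_RMG p_INC
  p_LOC p_NTV p_WNS p_ANL p_NLS

theorem r_FAX : T_FAX := Pool.Agent.H66.AP.pf_FAX

/-! ## Rank three at the scale of the crack -/

theorem s_KAP : Pool.Agent.H70.APS.T_KAP := Pool.Agent.H70.APS.pf_KAP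

theorem s_MFI : Pool.Agent.H70.APS.T_MFI := Pool.Agent.H65.APS.pf_MFI

theorem s_LNC : Pool.Agent.H70.APS.T_LNC := Pool.Agent.H70.APS.pf_LNC p_HSM

theorem s_PRP : Pool.Agent.H70.APS.T_PRP := Pool.Agent.H70.APS.pf_PRP

theorem s_FAR : Pool.Agent.H70.APS.T_FAR := Pool.Agent.H37.APS.pf_FAR p_HSM p_MVG s_KAP r_CRL s_MFI

theorem s_LMB : Pool.Agent.H70.APS.T_LMB := Pool.Agent.H37.APS.pf_LMB r_WKU

theorem s_NPT : Pool.Agent.H70.APS.T_NPT := Pool.Agent.H65.APS.pf_NPT p_NWT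

theorem s_NZM : Pool.Agent.H70.APS.T_NZM := Pool.Agent.H52.APS.pf_NZM Pool.Agent.H52.APS.pf_WHT

theorem s_NEA (hFIN : Pool.Agent.H70.APS.T_FIN) : Pool.Agent.H70.APS.T_NEA :=
  Pool.Agent.H70.APS.pf_NEA s_LMB hFIN r_WCH r_UCP

theorem s_SMS (hFIN : Pool.Agent.H70.APS.T_FIN) : Pool.Agent.H70.APS.T_SMS :=
  Pool.Agent.H70.APS.pf_SMS Pool.Agent.H70.APS.pf_HPF Pool.Agent.H70.APS.pf_HPA Pool.Agent.H70.APS.pf_BKD s_KAP
    (Pool.Agent.H65.APS.pf_PRS p_HSM r_MVB r_CRL) s_LNC s_PRP (Pool.Agent.H65.APS.pf_SMU s_LNC s_MFI s_PRP)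
    Pool.Agent.H19.APS.pf_RSC Pool.Agent.H70.APS.pf_RSD (s_NEA hFIN) s_FAR

theorem s_RKS (hFIN : Pool.Agent.H70.APS.T_FIN) : Pool.Agent.H70.APS.T_RKS :=
  Pool.Agent.H70.APS.pf_RKS (s_SMS hFIN) r_RKT

/-- the scale invariant version from the last module -/
theorem r_APF (hFIN : Pool.Agent.H70.APS.T_FIN) : T_APF :=
  pf_APF p_FAM (s_RKS hFIN) r_FAX r_RMN r_PSH r_JNO r_LAY r_SGQ r_NGQ r_CSP r_CSE k_SED p_CIR p_HRP k_EQN p_RK2 q_EDC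
    r_RCH

end Pool.Agent.H65.AP
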