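import Mathlib
import Pool.Agent.H65.AP.Pre
import Pool.Agent.H76.APS.FIN

/-!
# Insulating cracks under a scale invariant a priori bound (MP_0ee698_an): the theorem
-/

namespace Pool.Agent.H65.AP

theorem s_FIN : Pool.Agent.H70.APS.T_FIN :=
  Pool.Agent.H76.APS.pf_FIN s_MFI s_NZM s_NPT s_KAP

/-- the theorem -/
theorem a_APF : T_APF := r_APF s_FIN

end Pool.Agent.H65.AP
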